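import Pool.Agent.Helper84.GD.Defs

/-!
# Project FQ (MP_0f6f3f_an), layer CONV: reindexing of the group data `GD` by a bijection of the nodes

`D.re e : GD 𝔾 ι'` for `e : ι' ≃ ι`: node `i'` of the new data is node `e i'` of `D`.
-/

set_option autoImplicit false

open Filter Topology Matrix

namespace Pool.Agent.Helper84.GDL

namespace GD

variable {𝔾 : Type} [Group 𝔾] [TopologicalSpace 𝔾] {ι ι' : Type} [Fintype ι] [DecidableEq ι] [Fintype ι'] [DecidableEq ι']
variable (D : GD 𝔾 ι) (e : ι' ≃ ι)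

theorem sum_re (f g : ι → ℝ) : ∑ j', f (e j') * g (e j') = ∑ j, f j * g j := e.sum_comp fun j => f j * g j

theorem sum_re' (f : ι → ℝ) (c : ι' → ℝ) : ∑ j', f (e j') * c j' = ∑ j, f j * c (e.symm j) := by
  rw [← e.sum_comp fun j => f j * c (e.symm j)]
  exact Finset.sum_congr rfl fun j _ => by rw [e.symm_apply_apply]

theorem single_re (j : ι') (t : ℝ) : (fun i => (Pi.single j t : ι' → ℝ) (e.symm i)) = Pi.single (e j) t := by
  funext i
  by_cases h : i = e j
  · subst h
    rw [e.symm_apply_apply, Pi.single_eq_same, Pi.single_eq_same]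
  · rw [Pi.single_eq_of_ne h, Pi.single_eq_of_ne]
    intro h1
    exact h (by rw [← h1, e.apply_symm_apply])

/-- Reindexing of group data. -/
@[reducible] def re : GD 𝔾 ι' where
  K := D.K
  cpt := D.cpt
  ea c := D.ea fun i => c (e.symm i)
  ea_add c c' := D.ea_add _ _
  ea_cont := D.ea_cont.comp (by fun_prop)
  kL := D.kL
  kR := D.kR
  mu g i := D.mu g (e i)
  kL_mem := D.kL_mem
  kR_mem := D.kR_mem
  mu_nonneg g i := D.mu_nonneg g (e i)
  kak g := by
    have h : (fun i => D.mu g (e (e.symm i))) = D.mu g := funext fun i => by rw [e.apply_symm_apply]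
    rw [h]
    exact D.kak g
  d i := D.d (e i)
  rho l := D.rho (e l)
  rho_cont l := D.rho_cont (e l)
  orth l := D.orth (e l)
  n l i j := D.n (e l) i (e j)
  top l j := D.top (e l) (e j)
  top_nonneg l j := D.top_nonneg (e l) (e j)
  rho_ea l c := by
    rw [D.rho_ea]
    congr 1
    funext i
    congr 1
    exact (sum_re' e (fun j => D.top (e l) j - D.n (e l) i j) c).symm
  n_zero l j := D.n_zero (e l) (e j)
  n_pos l i hi := D.n_pos (e l) i hi
  C i l := D.C (e i) (e l)
  C_top c i := by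
    have h1 := D.C_top (fun i => c (e.symm i)) (e i)
    rw [e.symm_apply_apply] at h1
    rw [← h1, ← e.sum_comp]
    exact Finset.sum_congr rfl fun l _ => by rw [sum_re' e (D.top (e l)) c]
  C_nonpos i l h := D.C_nonpos _ _ fun h1 => h (e.injective h1)
  C_pos j := by
    obtain ⟨u, h1, h2, h3⟩ := D.C_pos (e j)
    refine ⟨fun i => u (e i), fun i => h1 _, h2, fun l hl => ?_⟩
    rw [sum_re e u fun i => D.C i (e l)]
    exact h3 _ fun h4 => hl (e.injective h4)
  par j B hB := by
    obtain ⟨B', h1, h2⟩ := D.par (e j) B hB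
    refine ⟨B', h1, fun g hg h3 t ht => ?_⟩
    rw [single_re, single_re]
    exact h2 g hg h3 t ht
  par' j B hB := by
    obtain ⟨B', h1, h2⟩ := D.par' (e j) B hB
    refine ⟨B', h1, fun g hg h3 t ht => ?_⟩
    rw [single_re, single_re]
    exact h2 g hg h3 t ht
  cell j δ hδ B hB := by
    obtain ⟨B', h1, h2⟩ := D.cell (e j) δ hδ B hB
    refine ⟨B', h1, fun g hg h3 => ?_⟩
    obtain ⟨x, hx, l, hl, y, hy, h4, h5, h6, h7⟩ := h2 g hg h3
    refine ⟨x, hx, l, hl, y, hy, h4, ?_, ?_, ?_⟩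
    · simpa only [single_re] using h5
    · simpa only [single_re] using h6
    · simpa only [single_re] using h7
  lev S l h := by
    have hS : ∀ i, i ∉ S.preimage e.symm ↔ e.symm i ∉ S := fun i => Iff.rfl
    obtain ⟨k1, hk1, k2, hk2, c, h1, h2, h3⟩ := D.lev (S.preimage e.symm) l fun c hc => by
      have h4 := h (fun i => c (e i)) fun i hi => hc (e i) (by rw [hS, e.symm_apply_apply]; exact hi)
      have h5 : (fun i => c (e (e.symm i))) = c := funext fun i => by rw [e.apply_symm_apply]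
      rwa [h5] at h4
    refine ⟨k1, hk1, k2, hk2, fun i => c (e i), fun i hi => h1 (e i) (by rw [hS, e.symm_apply_apply]; exact hi), ?_, fun c' hc' => h3 _ fun i hi => hc' _ hi⟩
    have h5 : (fun i => c (e (e.symm i))) = c := funext fun i => by rw [e.apply_symm_apply]
    rw [h5]
    exact h2

@[simp] theorem re_K : (D.re e).K = D.K := rfl
@[simp] theorem re_kL : (D.re e).kL = D.kL := rfl
@[simp] theorem re_kR : (D.re e).kR = D.kR := rfl
@[simp] theorem re_mu (g : 𝔾) (i : ι') : (D.re e).mu g i = D.mu g (e i) := rfl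
@[simp] theorem re_d (i : ι') : (D.re e).d i = D.d (e i) := rfl
@[simp] theorem re_rho (i : ι') : (D.re e).rho i = D.rho (e i) := rfl
@[simp] theorem re_n (l : ι') (i : Fin ((D.re e).d l + 1)) (j : ι') : (D.re e).n l i j = D.n (e l) i (e j) := rfl
@[simp] theorem re_top (l j : ι') : (D.re e).top l j = D.top (e l) (e j) := rfl
@[simp] theorem re_C (i l : ι') : (D.re e).C i l = D.C (e i) (e l) := rfl
theorem re_ea (c : ι' → ℝ) : (D.re e).ea c = D.ea fun i => c (e.symm i) := rfl
@[simp] theorem re_ea_comp (c : ι → ℝ) : (D.re e).ea (fun i => c (e i)) = D.ea c := by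
  rw [re_ea]
  congr 1
  funext i
  rw [e.apply_symm_apply]
@[simp] theorem re_ea_single (j : ι') (t : ℝ) : (D.re e).ea (Pi.single j t) = D.ea (Pi.single (e j) t) := by
  rw [re_ea, single_re]
@[simp] theorem re_opp (j : ι') (g h : 𝔾) : (D.re e).opp j g h = D.opp (e j) g h := rfl
@[simp] theorem re_xv (j : ι') (g : 𝔾) : (D.re e).xv j g = D.xv (e j) g := rfl
@[simp] theorem re_yv (j : ι') (g : 𝔾) : (D.re e).yv j g = D.yv (e j) g := rfl
@[simp] theorem re_tw (l : ι') (g : 𝔾) : (D.re e).tw l g = D.tw (e l) g := sum_re e _ _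

end GD

theorem SI.re {𝔾 : Type} [Group 𝔾] [TopologicalSpace 𝔾] {ι ι' : Type} [Fintype ι] [DecidableEq ι] [Fintype ι'] [DecidableEq ι']
    {D : GD 𝔾 ι} {Γ : Subgroup 𝔾} (h : SI D Γ) (e : ι' ≃ ι) : SI (D.re e) Γ := fun l Γ' h1 h2 W h3 => h (e l) Γ' h1 h2 W h3

theorem SI_re {𝔾 : Type} [Group 𝔾] [TopologicalSpace 𝔾] {ι ι' : Type} [Fintype ι] [DecidableEq ι] [Fintype ι'] [DecidableEq ι']
    {D : GD 𝔾 ι} {Γ : Subgroup 𝔾} (e : ι' ≃ ι) : SI (D.re e) Γ ↔ SI D Γ := by
  constructor
  · intro h l Γ' h1 h2 W h3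
    obtain ⟨l, rfl⟩ := e.surjective l
    exact h l Γ' h1 h2 W h3
  · exact fun h => h.re e

/-! ## Gap functions -/

namespace Gp

variable {G : Type} [Group G] {ι ι' : Type} [Fintype ι] [Fintype ι'] (S : Gp G ι) (e : ι' ≃ ι)

/-- Reindexing of gap functions. -/
@[reducible] def re : Gp G ι' where
  β γ i := S.β γ (e i)
  nonneg γ i := S.nonneg γ (e i)
  shift g h := by
    obtain ⟨C, hC⟩ := S.shift g h
    exact ⟨C, fun γ i => hC γ (e i)⟩
  fin R := (S.fin R).subset fun γ hγ i => by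
    have h := hγ (e.symm i)
    rwa [e.apply_symm_apply] at h

@[simp] theorem re_β (γ : G) (i : ι') : (S.re e).β γ i = S.β γ (e i) := rfl

theorem sum_map (γ : G) (I : Finset ι') : ∑ i ∈ I.map e.toEmbedding, S.β γ i = ∑ i ∈ I, (S.re e).β γ i := by
  rw [Finset.sum_map]
  rfl

theorem WC_re (J : Finset ι') (n : ℕ) : (S.re e).WC J n = S.WC (J.map e.toEmbedding) n := by
  ext γ
  constructor
  · intro h i hi
    obtain ⟨i', hi', rfl⟩ := Finset.mem_map.1 hi
    exact h i' hi'
  · exact fun h i hi => h (e i) (Finset.mem_map_of_mem _ hi)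

theorem TC_re (c : List (Finset ι')) (m : ℕ) : (S.re e).TC c m = S.TC (c.map fun I => I.map e.toEmbedding) m := by
  ext γ
  constructor
  · intro h I hI j hj
    obtain ⟨I', hI', rfl⟩ := List.mem_map.1 hI
    rw [S.sum_map e]
    obtain ⟨j', rfl⟩ := e.surjective j
    exact h I' hI' j' fun h1 => hj (Finset.mem_map_of_mem _ h1)
  · intro h I hI j hj
    have h1 := h (I.map e.toEmbedding) (List.mem_map.2 ⟨I, hI, rfl⟩) (e j) fun h2 => hj (by
      obtain ⟨j', hj', h3⟩ := Finset.mem_map.1 h2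
      rwa [← e.injective h3])
    rw [S.sum_map e] at h1
    exact h1

theorem FC_re (J : Finset ι') (c : List (Finset ι')) (n : ℕ) :
    (S.re e).FC J c n = S.FC (J.map e.toEmbedding) (c.map fun I => I.map e.toEmbedding) n := by
  unfold FC
  rw [WC_re]
  congr 1
  refine iInf_congr fun m => ?_
  rw [TC_re]
  rfl

theorem chR_re (J : Finset ι') (c : List (Finset ι')) :
    (S.re e).chR J c = S.chR (J.map e.toEmbedding) (c.map fun I => I.map e.toEmbedding) := by
  have h1 : (S.re e).WC J = S.WC (J.map e.toEmbedding) := funext fun n => S.WC_re e J n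
  have h2 : (S.re e).FC J c = S.FC (J.map e.toEmbedding) (c.map fun I => I.map e.toEmbedding) := funext fun n => S.FC_re e J c n
  unfold chR
  simp only [h1, h2]

theorem one_re [DecidableEq ι] [DecidableEq ι'] (j : ι') : (S.re e).one j = S.one (e j) := by
  unfold one
  rw [chR_re, Finset.map_erase, Finset.map_univ_equiv]
  rfl

end Gp

end Pool.Agent.Helper84.GDL
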