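import Pool.Agent.Helper43.FQ.Tg

/-!
# Project FQ (MP_0f6f3f_an), layer CONV: reindexing of the gap functions `Gp G r` and of the target data `Tg P r`

`A.re e` for `e : Fin r' ≃ Fin r`: node `i` of the new data is node `e i` of `A`. `Gp.reg_re`: the strata; `Gp.reg_erase`: the strata of one large gap.
-/

set_option autoImplicit false

open Filter Topology Matrix

namespace Pool.Agent.Helper43.FQ

open Pool.Agent.Helper84.NI Pool.Agent.Helper90.RK Pool.Agent.Helper84.GN Pool.Agent.Helper96.RK

namespace Gp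

variable {G : Type} [Group G] {r r' : ℕ} (A : Gp G r) (e : Fin r' ≃ Fin r)

/-- Reindexing. -/
@[reducible] def re : Gp G r' where
  gap γ l := A.gap γ (e l)
  nonneg γ l := A.nonneg γ (e l)
  gshift g h := by
    obtain ⟨C, hC⟩ := A.gshift g h
    exact ⟨C, fun γ l => hC γ (e l)⟩
  gfin n := (A.gfin n).subset fun γ hγ l => by
    have h := hγ (e.symm l)
    rwa [e.apply_symm_apply] at h

@[simp] theorem re_gap (γ : G) (l : Fin r') : (A.re e).gap γ l = A.gap γ (e l) := rfl

theorem WW_re (J : Finset (Fin r')) (n : ℕ) : (A.re e).WW J n = A.WW (J.map e.toEmbedding) n := by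
  ext γ
  constructor
  · intro h i hi
    obtain ⟨i', hi', rfl⟩ := Finset.mem_map.1 hi
    exact h i' hi'
  · exact fun h i hi => h (e i) (Finset.mem_map_of_mem _ hi)

theorem BB_re (J : Finset (Fin r')) (m : ℕ) : (A.re e).BB J m = A.BB (J.map e.toEmbedding) m := by
  ext γ
  constructor
  · intro h i hi
    obtain ⟨i', rfl⟩ := e.surjective i
    exact h i' fun h1 => hi (Finset.mem_map_of_mem _ h1)
  · intro h i hi
    refine h (e i) fun h2 => hi ?_
    obtain ⟨j', hj', h3⟩ := Finset.mem_map.1 h2
    rwa [← e.injective h3]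

theorem FF_re (J : Finset (Fin r')) (n : ℕ) : (A.re e).FF J n = A.FF (J.map e.toEmbedding) n := by
  unfold FF
  rw [WW_re]
  congr 1
  exact iInf_congr fun m => by rw [BB_re]

/-- The strata. -/
theorem reg_re (J : Finset (Fin r')) : (A.re e).reg J = A.reg (J.map e.toEmbedding) := by
  have h1 : (A.re e).WW J = A.WW (J.map e.toEmbedding) := funext fun n => A.WW_re e J n
  have h2 : (A.re e).FF J = A.FF (J.map e.toEmbedding) := funext fun n => A.FF_re e J n
  unfold reg
  simp only [h1, h2]

/-- The strata of one large gap. -/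
theorem reg_erase (j : Fin r') : (A.re e).reg (Finset.univ.erase j) = A.reg (Finset.univ.erase (e j)) := by
  rw [reg_re, Finset.map_erase, Finset.map_univ_equiv]
  rfl

theorem reg_erase_symm (j : Fin r) : (A.re e).reg (Finset.univ.erase (e.symm j)) = A.reg (Finset.univ.erase j) := by
  rw [reg_erase, e.apply_symm_apply]

end Gp

namespace Tg

variable {G : Type} [Group G] {N : ℕ} {P : PH G N} {r r' : ℕ} (A : Tg P r) (e : Fin r' ≃ Fin r)

/-- Reindexing. -/
@[reducible] def re : Tg P r' where
  toGp := A.toGp.re e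
  toSu := A.toSu
  cls i l := A.cls i (e l)
  ratio γ i j := by
    rw [A.ratio γ i j]
    congr 2
    exact (e.sum_comp fun l => ((A.cls i l - A.cls j l : ℤ) : ℝ) * A.gap γ l).symm
  asyR g h l := A.asyR g h (e l)
  asyL h l := A.asyL h (e l)

@[simp] theorem re_toGp : (A.re e).toGp = A.toGp.re e := rfl
@[simp] theorem re_toSu : (A.re e).toSu = A.toSu := rfl
@[simp] theorem re_cls (i : Fin N) (l : Fin r') : (A.re e).cls i l = A.cls i (e l) := rfl

end Tg

end Pool.Agent.Helper43.FQ
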