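import Pool.Agent.Helper35.NI.Defs

/-!
# Project FQ (MP_0f6f3f_an), layer CONV: reindexing of the data `ND G I` of layer NI by a bijection of the nodes

`A.re e` for `e : I' ≃ I`: node `i` of the new data is node `e i` of `A`. `Sv_re`, `Su_re`: the sets of the two factors. `Geo.re`, `NI.re`.
-/

set_option autoImplicit false
set_option linter.unusedSectionVars false
set_option linter.dupNamespace false

open MeasureTheory Filter Topology Matrix
open scoped ComplexConjugate

namespace Pool.Agent.Helper35.NI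

open Pool.Agent.Helper20.TB Pool.Agent.Helper84.NI Pool.Agent.Helper84.GVN Pool.Agent.Helper90.RK Pool.Agent.Helper96.RK

namespace ND

variable {G : Type} [Group G] {I I' : Type} [Fintype I] [Fintype I'] (A : ND G I) (e : I' ≃ I)

/-- Reindexing. -/
@[reducible] def re : ND G I' where
  n i := A.n (e i)
  r i := A.r (e i)
  gap g i := A.gap g (e i)
  xR i := A.xR (e i)
  xL i := A.xL (e i)
  co l m := A.co (e l) (e m)
  C0 := A.C0
  one_le := A.one_le
  nonneg g i := A.nonneg g (e i)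
  fin N := (A.fin N).subset fun g hg i => by
    have h := hg (e.symm i)
    rwa [e.apply_symm_apply] at h
  uR i := A.uR (e i)
  uL i := A.uL (e i)
  nearR i := A.nearR (e i)
  nearL i := A.nearL (e i)
  lowR i := A.lowR (e i)
  size g l := by
    rw [e.sum_comp fun m => A.co (e l) m * Real.log (hs (A.r m g))]
    exact A.size g (e l)
  upR i := A.upR (e i)

@[simp] theorem re_n (i : I') : (A.re e).n i = A.n (e i) := rfl
@[simp] theorem re_r (i : I') : (A.re e).r i = A.r (e i) := rfl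
@[simp] theorem re_gap (g : G) (i : I') : (A.re e).gap g i = A.gap g (e i) := rfl
@[simp] theorem re_xR (i : I') : (A.re e).xR i = A.xR (e i) := rfl
@[simp] theorem re_xL (i : I') : (A.re e).xL i = A.xL (e i) := rfl

private theorem all_ne {j : I'} {p : I → Prop} : (∀ i, i ≠ j → p (e i)) ↔ ∀ i, i ≠ e j → p i := by
  constructor
  · intro h i hi
    obtain ⟨i, rfl⟩ := e.surjective i
    exact h i fun h1 => hi (by rw [h1])
  · exact fun h i hi => h (e i) fun h1 => hi (e.injective h1)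

private theorem ex_ne {j : I'} {p : I → Prop} : (∃ i, i ≠ j ∧ p (e i)) ↔ ∃ i, i ≠ e j ∧ p i := by
  constructor
  · rintro ⟨i, h1, h2⟩
    exact ⟨e i, fun h3 => h1 (e.injective h3), h2⟩
  · rintro ⟨i, h1, h2⟩
    obtain ⟨i, rfl⟩ := e.surjective i
    exact ⟨i, fun h3 => h1 (by rw [h3]), h2⟩

theorem Sv_re (j : I') (C κ L : ℝ) (x : EuclideanSpace ℝ (Fin (A.n (e j)))) : (A.re e).Sv j C κ L x = A.Sv (e j) C κ L x := by
  ext g
  exact and_congr (all_ne e (p := fun i => A.gap g i ≤ C)) Iff.rfl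

theorem Su_re (j : I') (L d : ℝ) (x : EuclideanSpace ℝ (Fin (A.n (e j)))) : (A.re e).Su j L d x = A.Su (e j) L d x := rfl

variable {A}

theorem Geo.re {j : I'} (h : A.Geo (e j)) : (A.re e).Geo j := by
  intro C κ hC hκ
  obtain ⟨L, d, c, C', R0, h1, h2, h3, h4⟩ := h C κ hC hκ
  refine ⟨L, d, c, C', R0, h1, h2, h3, fun x hx => ?_⟩
  obtain ⟨R1, a1, a2, a3, a4, a5⟩ := h4 x hx
  simp only [Sv_re, Su_re]
  exact ⟨R1, a1, fun g hg r hr i => a2 g hg r hr (e i), fun r hr k hk i => a3 r hr k hk (e i),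
    fun r hr => (all_ne e (p := fun i => A.gap r i ≤ C')).2 (a4 r hr),
    fun g hg k hk => (all_ne e (p := fun i => |A.gap (g * k) i - A.gap k i| ≤ C')).2 (a5 g hg k hk)⟩

theorem NI.re {j : I'} (h : A.NI (e j)) : (A.re e).NI j := by
  intro ε hε
  obtain ⟨δV, h1, h2⟩ := h ε hε
  refine ⟨δV, h1, fun C κ hC hκ => ?_⟩
  obtain ⟨δU, d, h3, h4, h5⟩ := h2 C κ hC hκ
  refine ⟨δU, d, h3, h4, fun CU hCU => ?_⟩
  obtain ⟨L, C', h6, h7⟩ := h5 CU hCU
  refine ⟨L, C', h6, fun x hx s v u hv hu h8 h9 => ?_⟩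
  have e1 : ({k | k ∈ A.Su (e j) L d x ∧ ∀ i, i ≠ e j → |A.gap k i - s (e.symm i)| ≤ CU} : Set G) =
      {k | k ∈ (A.re e).Su j L d x ∧ ∀ i, i ≠ j → |(A.re e).gap k i - s i| ≤ CU} := by
    ext k
    refine and_congr Iff.rfl ?_
    rw [← all_ne e (p := fun i => |A.gap k i - s (e.symm i)| ≤ CU)]
    simp only [e.symm_apply_apply]
  have e2 : ({p | ∃ i, i ≠ e j ∧ C' < |A.gap p i - s (e.symm i)|} : Set G) =
      {p | ∃ i, i ≠ j ∧ C' < |(A.re e).gap p i - s i|} := by
    ext p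
    show (∃ i, i ≠ e j ∧ C' < |A.gap p i - s (e.symm i)|) ↔ ∃ i, i ≠ j ∧ C' < |A.gap p (e i) - s i|
    rw [← ex_ne e (p := fun i => C' < |A.gap p i - s (e.symm i)|)]
    simp only [e.symm_apply_apply]
  have h10 := h7 x hx (fun i => s (e.symm i)) v u hv hu (by rw [← Sv_re]; exact h8) (by rw [e1]; exact h9)
  rwa [e2] at h10

end ND

end Pool.Agent.Helper35.NI
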