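import Pool.Agent.Helper84.GD.PD
import Pool.Agent.Helper59.FQ.ReiGD

/-!
# Project FQ (MP_0f6f3f_an), layer CONV: reindexing, position data

`D.re e`: data, projections, the position datum `pd`, the properties `Low`, `Dn`.
-/

set_option autoImplicit false

open Filter Topology Matrix

namespace Pool.Agent.Helper84.GDL

open scoped Matrix.Norms.L2Operator

open GN

namespace GD

variable {𝔾 : Type} [Group 𝔾] [TopologicalSpace 𝔾] {ι ι' : Type} [Fintype ι] [DecidableEq ι] [Fintype ι'] [DecidableEq ι']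
variable (D : GD 𝔾 ι) (e : ι' ≃ ι)

@[simp] theorem re_X (j : ι') (g : 𝔾) : (D.re e).X j g = D.X (e j) g := rfl
@[simp] theorem re_Y (j : ι') (g : 𝔾) : (D.re e).Y j g = D.Y (e j) g := rfl
@[simp] theorem re_pj (j : ι') (g : 𝔾) : (D.re e).pj j g = D.pj (e j) g := rfl
@[simp] theorem re_qj (j : ι') (g : 𝔾) : (D.re e).qj j g = D.qj (e j) g := rfl
theorem re_pdOf (j : ι') {G : Type} (f : G → 𝔾) : (D.re e).pdOf j f = D.pdOf (e j) f := rfl
theorem re_pd (j : ι') (Γ : Subgroup 𝔾) : (D.re e).pd j Γ = D.pd (e j) Γ := rfl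

variable {D}

theorem Low.re (h : D.Low) : (D.re e).Low := by
  intro l
  obtain ⟨i, hi⟩ := h (e l)
  refine ⟨i, fun j => ?_⟩
  rw [re_n, hi]
  simp only [e.apply_eq_iff_eq]

theorem Dn.re (h : D.Dn) : (D.re e).Dn := fun j => h (e j)

end GD

end Pool.Agent.Helper84.GDL
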